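import Pool.Agent.Q89.PC6

/-!
# MP_eab232, Q2: p-conjugacy is undecidable for some finite monadic confluent rewriting system

A letter `#` consumes index letters on its left and word letters on its right, a letter `$`
consumes word letters on its left and index letters on its right. For suitable words, `u v` and
`v u` reduce to two given words exactly if two such processes with the same sequence of index
letters and the same word both succeed; this encodes the computations of a machine.
-/

namespace Pool.Agent.Results.MP_eab232_al.PConjUndecidable

open Pool.Agent.Q89.PC

theorem result : ∃ (k : ℕ) (R : Set (List (Fin k) × List (Fin k))),
    R.Finite ∧ Monadic R ∧ Confluent R ∧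
    ¬ ComputablePred (fun p : List (Fin k) × List (Fin k) => PConj (word R p.1) (word R p.2)) :=
  undecidable

end Pool.Agent.Results.MP_eab232_al.PConjUndecidable
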